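import Mathlib
import Pool.Agent.Lib.MP_5bc52d_co.Gen

/-!
# Derivations of a ring with a splitting, conjugated by a letter

If `D` is a derivation of `A`, so is the coefficient of `X^c` in `f ↦ N (D (E f))`, where `E` is
the splitting homomorphism and `N` its inverse.
-/

open Finset Polynomial

namespace Pool.Agent.Lib.MP_5bc52d_co

namespace Splitting

variable {A : Type*} [CommRing A] (S : Splitting A)

/-- additive and Leibniz -/
structure IsDer (D : A → A) : Prop where
  add : ∀ f g, D (f + g) = D f + D g
  mul : ∀ f g, D (f * g) = f * D g + g * D f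

theorem IsDer.zero {D : A → A} (h : IsDer D) : D 0 = 0 := by
  have := h.add 0 0
  rw [add_zero] at this
  exact left_eq_add.mp this

theorem IsDer.sum {D : A → A} (h : IsDer D) {ι : Type*} (s : Finset ι) (f : ι → A) :
    D (∑ i ∈ s, f i) = ∑ i ∈ s, D (f i) := by
  classical
  induction s using Finset.induction_on with
  | empty => simp [h.zero]
  | insert a s ha ih => rw [Finset.sum_insert ha, Finset.sum_insert ha, h.add, ih]

/-- the derivation given by the coefficient of the first power -/
theorem isDer_one : IsDer (S.qp 1) := by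
  refine ⟨fun f g => S.qp_add 1 f g, fun f g => ?_⟩
  rw [S.qp_mul]
  have : antidiagonal 1 = {(0, 1), (1, 0)} := by decide
  rw [this, Finset.sum_pair (by decide), S.qp_zero, S.qp_zero]
  ring

/-- apply `D` to the coefficients -/
noncomputable def mapD (D : A → A) (p : A[X]) : A[X] :=
  ∑ k ∈ p.support, monomial k (D (p.coeff k))

theorem coeff_mapD {D : A → A} (hD : IsDer D) (p : A[X]) (k : ℕ) :
    (mapD D p).coeff k = D (p.coeff k) := by
  rw [mapD, finsetSum_coeff]
  simp only [coeff_monomial]
  rw [Finset.sum_ite_eq']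
  split_ifs with h
  · rfl
  · rw [Polynomial.notMem_support_iff.mp h, hD.zero]

theorem mapD_add {D : A → A} (hD : IsDer D) (p q : A[X]) :
    mapD D (p + q) = mapD D p + mapD D q := by
  ext1 k
  rw [coeff_add, coeff_mapD hD, coeff_mapD hD, coeff_mapD hD, coeff_add, hD.add]

theorem mapD_mul {D : A → A} (hD : IsDer D) (p q : A[X]) :
    mapD D (p * q) = p * mapD D q + q * mapD D p := by
  ext1 k
  rw [mul_comm q, coeff_add, coeff_mapD hD, coeff_mul, hD.sum, coeff_mul, coeff_mul,
    ← Finset.sum_add_distrib]
  apply Finset.sum_congr rfl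
  intro x _
  rw [hD.mul, coeff_mapD hD, coeff_mapD hD]
  ring

theorem mapD_C {D : A → A} (hD : IsDer D) (a : A) : mapD D (C a) = C (D a) := by
  ext1 k
  rw [coeff_mapD hD, coeff_C, coeff_C]
  split_ifs
  · rfl
  · exact hD.zero

/-- conjugation of a derivation by a letter -/
noncomputable def cj (D : A → A) (c : ℕ) (f : A) : A := (S.Nhat (mapD D (S.E f))).coeff c

theorem isDer_cj {D : A → A} (hD : IsDer D) (c : ℕ) : IsDer (S.cj D c) := by
  refine ⟨fun f g => ?_, fun f g => ?_⟩
  · rw [cj, map_add, mapD_add hD, map_add, coeff_add]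
    rfl
  · rw [cj, map_mul, mapD_mul hD, map_add, map_mul, map_mul, S.Nhat_E, S.Nhat_E, coeff_add,
      coeff_C_mul, coeff_C_mul]
    rfl

/-- iterated conjugation -/
noncomputable def tw : List ℕ → A → A
  | [] => S.qp 1
  | c :: l => S.cj (tw l) c

theorem isDer_tw (l : List ℕ) : IsDer (S.tw l) := by
  induction l with
  | nil => exact S.isDer_one
  | cons c l ih => exact S.isDer_cj ih c

end Splitting

end Pool.Agent.Lib.MP_5bc52d_co
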