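import Mathlib
import Pool.Agent.Lib.MP_5bc52d_co.Sym.Conj

/-!
# The conjugated derivations on the generating functions of a labelled poset
-/

open Finset Polynomial

set_option linter.unusedSectionVars false

namespace Pool.Agent.Lib.MP_5bc52d_co

variable {P : Type*} [Fintype P] [DecidableEq P]

/-- `M` is an initial part of `U` -/
def Dn (r : P → P → Prop) (U M : Finset P) : Prop :=
  M ⊆ U ∧ ∀ a ∈ U, ∀ b ∈ M, r a b → a ∈ M

/-- first an increasing part, then the middle part, then a decreasing part -/
def Cond (r : P → P → Prop) (ω : P → ℤ) (c : ℕ) (U M' : Finset P)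
    (x : Finset P × Finset P × Finset P) : Prop :=
  Wk r ω U x.1 ∧ Dn r (U \ x.1) x.2.1 ∧ Wk r (-ω) ((U \ x.1) \ x.2.1) x.2.2 ∧
    x.1.card + x.2.2.card = c ∧ x.1 ∪ x.2.1 ∪ x.2.2 = M'

open Classical in
/-- signed number of ways to fill the letters -/
noncomputable def W (r : P → P → Prop) (ω : P → ℤ) : List ℕ → Finset P → Finset P → ℤ
  | [], U, M => if Wk r ω U M ∧ M.card = 1 then 1 else 0
  | c :: l, U, M' => ∑ x : Finset P × Finset P × Finset P,
      if Cond r ω c U M' x then (-1) ^ x.2.2.card * W r ω l (U \ x.1) x.2.1 else 0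

section
variable {r : P → P → Prop} {ω : P → ℤ}

theorem Wk.dn {U I : Finset P} (h : Wk r ω U I) : Dn r U I :=
  ⟨h.1, fun a ha b hb hab => (h.2 a ha b hb hab).1⟩

theorem Cond.dn {c : ℕ} {U M' : Finset P} {x : Finset P × Finset P × Finset P}
    (h : Cond r ω c U M' x) : Dn r U M' := by
  obtain ⟨h1, h2, h3, -, h5⟩ := h
  rw [← h5]
  constructor
  · apply Finset.union_subset (Finset.union_subset h1.1 (h2.1.trans Finset.sdiff_subset))
    exact h3.1.trans (Finset.sdiff_subset.trans Finset.sdiff_subset)
  · intro a ha b hb hab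
    simp only [Finset.mem_union] at hb ⊢
    by_cases ha1 : a ∈ x.1
    · exact Or.inl (Or.inl ha1)
    · by_cases ha2 : a ∈ x.2.1
      · exact Or.inl (Or.inr ha2)
      · rcases hb with (hb | hb) | hb
        · exact absurd (h1.2 a ha b hb hab).1 ha1
        · exact absurd (h2.2 a (Finset.mem_sdiff.mpr ⟨ha, ha1⟩) b hb hab) ha2
        · exact Or.inr (h3.2 a (Finset.mem_sdiff.mpr ⟨Finset.mem_sdiff.mpr ⟨ha, ha1⟩, ha2⟩)
            b hb hab).1

theorem W_dn {l : List ℕ} {U M : Finset P} (h : W r ω l U M ≠ 0) : Dn r U M := by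
  classical
  cases l with
  | nil =>
    rw [W] at h
    split_ifs at h with h1
    · exact h1.1.dn
    · exact absurd rfl h
  | cons c l =>
    rw [W] at h
    obtain ⟨x, -, hx⟩ := Finset.exists_ne_zero_of_sum_ne_zero h
    split_ifs at hx with h1
    · exact h1.dn
    · exact absurd rfl hx

variable {A : Type*} [CommRing A] (S : Splitting A) (Γ : Finset P → A)

namespace Splitting

theorem mapD_zero {D : A → A} (hD : IsDer D) : mapD D (0 : A[X]) = 0 := by
  ext1 k
  rw [coeff_mapD hD, coeff_zero, hD.zero]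

theorem mapD_sum {D : A → A} (hD : IsDer D) {ι : Type*} (s : Finset ι) (f : ι → A[X]) :
    mapD D (∑ i ∈ s, f i) = ∑ i ∈ s, mapD D (f i) := by
  classical
  induction s using Finset.induction_on with
  | empty => simp [mapD_zero hD]
  | insert a s ha ih => rw [Finset.sum_insert ha, Finset.sum_insert ha, mapD_add hD, ih]

theorem mapD_CX {D : A → A} (hD : IsDer D) (a : A) (k : ℕ) :
    mapD D (C a * X ^ k) = C (D a) * X ^ k := by
  ext1 j
  rw [coeff_mapD hD, coeff_C_mul_X_pow, coeff_C_mul_X_pow]
  split_ifs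
  · rfl
  · exact hD.zero

theorem Nhat_C (f : A) : S.Nhat (C f) = S.N f := by simp [Nhat]

theorem Nhat_X : S.Nhat X = X := by simp [Nhat]

end Splitting

theorem sum_swap3 {ι : Type*} [Fintype ι] {A : Type*} [AddCommMonoid A]
    (f : ι → ι → ι → ι → A) :
    ∑ x, ∑ i, ∑ j, ∑ k, f x i j k = ∑ i, ∑ j, ∑ k, ∑ x, f x i j k := by
  rw [Finset.sum_comm]
  apply Finset.sum_congr rfl
  intro i _
  rw [Finset.sum_comm]
  apply Finset.sum_congr rfl
  intro j _
  rw [Finset.sum_comm]

theorem tw_Gamma (hi : ∀ x, ¬ r x x) (hω : Function.Injective ω)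
    (hE : ∀ U k, S.qp k (Γ U) = ∑ I ∈ (wks r ω U) with I.card = k, Γ (U \ I))
    (l : List ℕ) (U : Finset P) :
    S.tw l (Γ U) = ∑ M : Finset P, ((W r ω l U M : ℤ) : A) * Γ (U \ M) := by
  classical
  induction l generalizing U with
  | nil =>
    rw [Splitting.tw, hE, Finset.sum_filter]
    rw [← Finset.sum_subset (Finset.subset_univ (wks r ω U))]
    · apply Finset.sum_congr rfl
      intro I hI
      rw [mem_wks] at hI
      rw [W]
      by_cases h : I.card = 1
      · rw [if_pos h, if_pos ⟨hI, h⟩]; simp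
      · rw [if_neg h, if_neg (fun h' => h h'.2)]; simp
    · intro I _ hI
      rw [mem_wks] at hI
      rw [W, if_neg (fun h' => hI h'.1)]
      simp
  | cons c l ih =>
    have h1 : S.Nhat (Splitting.mapD (S.tw l) (S.E (Γ U))) =
        ∑ I : Finset P, ∑ M : Finset P, ∑ J : Finset P,
          if Wk r ω U I ∧ Wk r (-ω) ((U \ I) \ M) J then
            C (((-1) ^ J.card * W r ω l (U \ I) M : ℤ) : A) *
              (C (Γ (((U \ I) \ M) \ J)) * X ^ (I.card + J.card)) else 0 := by
      rw [E_Gamma S Γ hE, Splitting.mapD_sum (S.isDer_tw l), map_sum]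
      rw [← Finset.sum_subset (Finset.subset_univ (wks r ω U))]
      · apply Finset.sum_congr rfl
        intro I hI
        rw [mem_wks] at hI
        rw [Splitting.mapD_CX (S.isDer_tw l), map_mul, map_pow, S.Nhat_C, S.Nhat_X, ih, map_sum,
          Finset.sum_mul]
        apply Finset.sum_congr rfl
        intro M _
        rw [map_mul, map_intCast, N_Gamma S Γ hi hω hE, Finset.mul_sum, Finset.sum_mul]
        rw [← Finset.sum_subset (Finset.subset_univ (wks r (-ω) ((U \ I) \ M)))]
        · apply Finset.sum_congr rfl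
          intro J hJ
          rw [mem_wks] at hJ
          rw [if_pos ⟨hI, hJ⟩, pow_add]
          simp only [Int.cast_mul, Int.cast_pow, Int.cast_neg, Int.cast_one, map_mul, map_pow,
            map_neg, map_one, map_intCast]
          ring
        · intro J _ hJ
          rw [mem_wks] at hJ
          rw [if_neg (fun h => hJ h.2)]
      · intro I _ hI
        rw [mem_wks] at hI
        apply Finset.sum_eq_zero
        intro M _
        apply Finset.sum_eq_zero
        intro J _
        rw [if_neg (fun h => hI h.1)]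
    have h2 : S.tw (c :: l) (Γ U) = ∑ I : Finset P, ∑ M : Finset P, ∑ J : Finset P,
          if Wk r ω U I ∧ Wk r (-ω) ((U \ I) \ M) J ∧ I.card + J.card = c then
            (((-1) ^ J.card * W r ω l (U \ I) M : ℤ) : A) * Γ (((U \ I) \ M) \ J) else 0 := by
      rw [Splitting.tw, Splitting.cj, h1, finsetSum_coeff]
      apply Finset.sum_congr rfl
      intro I _
      rw [finsetSum_coeff]
      apply Finset.sum_congr rfl
      intro M _
      rw [finsetSum_coeff]
      apply Finset.sum_congr rfl
      intro J _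
      by_cases h : Wk r ω U I ∧ Wk r (-ω) ((U \ I) \ M) J
      · rw [if_pos h, coeff_C_mul, coeff_C_mul_X_pow]
        by_cases hc : I.card + J.card = c
        · rw [if_pos hc.symm, if_pos ⟨h.1, h.2, hc⟩]
        · rw [if_neg (Ne.symm hc), if_neg (fun h' => hc h'.2.2), mul_zero]
      · rw [if_neg h, if_neg (fun h' => h ⟨h'.1, h'.2.1⟩), coeff_zero]
    rw [h2]
    have h3 : ∀ M' : Finset P, ((W r ω (c :: l) U M' : ℤ) : A) * Γ (U \ M') =
        ∑ I : Finset P, ∑ M : Finset P, ∑ J : Finset P,
          if Cond r ω c U M' (I, M, J) then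
            (((-1) ^ J.card * W r ω l (U \ I) M : ℤ) : A) * Γ (U \ M') else 0 := by
      intro M'
      rw [W, Int.cast_sum, Finset.sum_mul, Fintype.sum_prod_type]
      apply Finset.sum_congr rfl
      intro I _
      rw [Fintype.sum_prod_type]
      apply Finset.sum_congr rfl
      intro M _
      apply Finset.sum_congr rfl
      intro J _
      split_ifs with h
      · rfl
      · simp
    rw [Finset.sum_congr rfl (fun M' _ => h3 M'), sum_swap3]
    apply Finset.sum_congr rfl
    intro I _
    apply Finset.sum_congr rfl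
    intro M _
    apply Finset.sum_congr rfl
    intro J _
    by_cases h : Wk r ω U I ∧ Wk r (-ω) ((U \ I) \ M) J ∧ I.card + J.card = c
    · rw [if_pos h]
      by_cases hW : W r ω l (U \ I) M = 0
      · rw [hW]
        simp
      · have hd := W_dn hW
        rw [Finset.sum_eq_single (I ∪ M ∪ J)]
        · rw [if_pos ⟨h.1, hd, h.2.1, h.2.2, rfl⟩]
          congr 2
          rw [sdiff_sdiff_left, sdiff_sdiff_left]
          simp only [Finset.sup_eq_union, Finset.union_assoc]
        · intro M' _ hM'
          rw [if_neg (fun h' => hM' h'.2.2.2.2.symm)]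
        · intro h'
          exact absurd (Finset.mem_univ _) h'
    · rw [if_neg h]
      symm
      apply Finset.sum_eq_zero
      intro M' _
      rw [if_neg (fun h' => h ⟨h'.1, h'.2.2.1, h'.2.2.2.1⟩)]

end

end Pool.Agent.Lib.MP_5bc52d_co
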