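import Mathlib
import Pool.Agent.Lib.MP_5bc52d_co.Sym.Rep

/-!
# Automorphisms preserving the cover relations and their types
-/

open Finset
open scoped Pointwise

set_option linter.unusedSectionVars false

namespace Pool.Agent.Lib.MP_5bc52d_co

variable {P : Type*} [Fintype P] [DecidableEq P] [PartialOrder P]

/-- closed upwards -/
def Up (U : Finset P) : Prop := ∀ a ∈ U, ∀ b, a < b → b ∈ U

theorem Up.sdiff {U M : Finset P} (hU : Up U) (hM : Dn (fun a b : P => a < b) U M) :
    Up (U \ M) := by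
  intro a ha b hab
  rw [Finset.mem_sdiff] at ha ⊢
  exact ⟨hU a ha.1 b hab, fun hb => ha.2 (hM.2 a ha.1 b hb hab)⟩

theorem transGen_cov {a b : P} (h : a < b) : Relation.TransGen (· ⋖ ·) a b := by
  classical
  let _ := Fintype.toLocallyFiniteOrder (α := P)
  exact transGen_covBy_of_lt h

theorem Wk_iff_cov {ω : P → ℤ} {U I : Finset P} (hU : Up U) :
    Wk (fun a b : P => a < b) ω U I ↔
      I ⊆ U ∧ ∀ a ∈ U, ∀ b ∈ I, a ⋖ b → a ∈ I ∧ ω a < ω b := by
  constructor
  · rintro ⟨h1, h2⟩
    exact ⟨h1, fun a ha b hb hab => h2 a ha b hb hab.lt⟩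
  · rintro ⟨h1, h2⟩
    refine ⟨h1, fun a ha b hb hab => ?_⟩
    have h3 := transGen_cov hab
    clear hab
    induction h3 using Relation.TransGen.head_induction_on with
    | single h => exact h2 _ ha b hb h
    | head h _ ih =>
      have h4 := ih (hU _ ha _ h.lt)
      have h5 := h2 _ ha _ h4.1 h
      exact ⟨h5.1, h5.2.trans h4.2⟩

variable {G : Type*} [Group G] [MulAction G P]

variable (G) in
/-- the group acts by automorphisms preserving the types of the cover relations -/
structure Act (ω : P → ℤ) : Prop where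
  cov : ∀ (g : G) (a b : P), a ⋖ b → g • a ⋖ g • b
  typ : ∀ (g : G) (a b : P), a ⋖ b → ω a < ω b → ω (g • a) < ω (g • b)

theorem Act.lt {ω : P → ℤ} (h : Act G ω) (g : G) {a b : P} (hab : a < b) : g • a < g • b := by
  have h3 := transGen_cov hab
  clear hab
  induction h3 with
  | single h1 => exact (h.cov g _ _ h1).lt
  | tail _ h1 ih => exact ih.trans (h.cov g _ _ h1).lt

theorem Act.neg {ω : P → ℤ} (hω : Function.Injective ω) (h : Act G ω) : Act G (-ω) := by
  refine ⟨h.cov, fun g a b hab hlt => ?_⟩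
  simp only [Pi.neg_apply, neg_lt_neg_iff] at hlt ⊢
  by_contra hcon
  have h1 : ω (g • a) ≠ ω (g • b) := fun h2 => (h.cov g a b hab).lt.ne (hω h2)
  have h2 := h.typ g⁻¹ (g • a) (g • b) (h.cov g a b hab) (by omega)
  rw [inv_smul_smul, inv_smul_smul] at h2
  omega

theorem Up.smul {ω : P → ℤ} (h : Act G ω) {U : Finset P} (hU : Up U) (g : G) : Up (g • U) := by
  intro a ha b hab
  rw [← Finset.inv_smul_mem_iff] at ha ⊢
  exact hU _ ha _ (h.lt g⁻¹ hab)

theorem Dn.smul {ω : P → ℤ} (h : Act G ω) {U M : Finset P}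
    (hM : Dn (fun a b : P => a < b) U M) (g : G) :
    Dn (fun a b : P => a < b) (g • U) (g • M) := by
  refine ⟨Finset.smul_finset_subset_smul_finset hM.1, fun a ha b hb hab => ?_⟩
  rw [← Finset.inv_smul_mem_iff] at ha hb ⊢
  exact hM.2 _ ha _ hb (h.lt g⁻¹ hab)

theorem Wk.smul {ω : P → ℤ} (h : Act G ω) {U I : Finset P} (hU : Up U)
    (hI : Wk (fun a b : P => a < b) ω U I) (g : G) :
    Wk (fun a b : P => a < b) ω (g • U) (g • I) := by
  rw [Wk_iff_cov hU] at hI
  rw [Wk_iff_cov (hU.smul h g)]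
  refine ⟨Finset.smul_finset_subset_smul_finset hI.1, fun a ha b hb hab => ?_⟩
  rw [← Finset.inv_smul_mem_iff] at ha hb ⊢
  have h1 := h.cov g⁻¹ a b hab
  have h2 := hI.2 _ ha _ hb h1
  refine ⟨h2.1, ?_⟩
  have h3 := h.typ g _ _ h1 h2.2
  rwa [smul_inv_smul, smul_inv_smul] at h3

theorem Cond.smul {ω : P → ℤ} (hω : Function.Injective ω) (h : Act G ω) {c : ℕ} {U M : Finset P}
    (hU : Up U) {x : Finset P × Finset P × Finset P}
    (hx : Cond (fun a b : P => a < b) ω c U M x) (g : G) :
    Cond (fun a b : P => a < b) ω c (g • U) (g • M) (g • x) := by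
  obtain ⟨I, M', J⟩ := x
  obtain ⟨h1, h2, h3, h4, h5⟩ := hx
  have hU1 : Up (U \ I) := hU.sdiff h1.dn
  have hU2 : Up ((U \ I) \ M') := hU1.sdiff h2
  refine ⟨h1.smul h hU g, ?_, ?_, ?_, ?_⟩
  · change Dn _ (g • U \ g • I) (g • M')
    rw [← Finset.smul_finset_sdiff]
    exact h2.smul h g
  · change Wk _ _ ((g • U \ g • I) \ g • M') (g • J)
    rw [← Finset.smul_finset_sdiff, ← Finset.smul_finset_sdiff]
    exact h3.smul (h.neg hω) hU2 g
  · change (g • I).card + (g • J).card = c
    rw [Finset.card_smul_finset, Finset.card_smul_finset]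
    exact h4
  · change g • I ∪ g • M' ∪ g • J = g • M
    rw [← Finset.smul_finset_union, ← Finset.smul_finset_union, ← h5]

theorem Cond.smul_iff {ω : P → ℤ} (hω : Function.Injective ω) (h : Act G ω) {c : ℕ}
    {U M : Finset P} (hU : Up U) (x : Finset P × Finset P × Finset P) (g : G) :
    Cond (fun a b : P => a < b) ω c (g • U) (g • M) (g • x) ↔
      Cond (fun a b : P => a < b) ω c U M x := by
  constructor
  · intro h1
    have h2 := h1.smul hω h (hU.smul h g) g⁻¹
    rwa [inv_smul_smul, inv_smul_smul, inv_smul_smul] at h2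
  · exact fun h1 => h1.smul hω h hU g

theorem W_smul {ω : P → ℤ} (hω : Function.Injective ω) (h : Act G ω) (l : List ℕ)
    {U : Finset P} (hU : Up U) (M : Finset P) (g : G) :
    W (fun a b : P => a < b) ω l (g • U) (g • M) = W (fun a b : P => a < b) ω l U M := by
  classical
  induction l generalizing U M with
  | nil =>
    rw [W, W]
    have h1 : (Wk (fun a b : P => a < b) ω (g • U) (g • M) ∧ (g • M).card = 1) ↔
        (Wk (fun a b : P => a < b) ω U M ∧ M.card = 1) := by
      rw [Finset.card_smul_finset]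
      refine and_congr ⟨fun h2 => ?_, fun h2 => h2.smul h hU g⟩ Iff.rfl
      have h3 := h2.smul h (hU.smul h g) g⁻¹
      rwa [inv_smul_smul, inv_smul_smul] at h3
    by_cases h2 : Wk (fun a b : P => a < b) ω U M ∧ M.card = 1
    · rw [if_pos h2, if_pos (h1.mpr h2)]
    · rw [if_neg h2, if_neg (fun h3 => h2 (h1.mp h3))]
  | cons c l ih =>
    rw [W, W]
    symm
    refine Fintype.sum_equiv (MulAction.toPerm g) _ _ (fun x => ?_)
    rw [MulAction.toPerm_apply]
    by_cases h1 : Cond (fun a b : P => a < b) ω c U M x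
    · rw [if_pos h1, if_pos ((Cond.smul_iff hω h hU x g).mpr h1)]
      obtain ⟨I, M', J⟩ := x
      change _ = (-1) ^ (g • J).card * W _ ω l (g • U \ g • I) (g • M')
      rw [← Finset.smul_finset_sdiff, ih (hU.sdiff h1.1.dn), Finset.card_smul_finset]
    · rw [if_neg h1, if_neg (fun h2 => h1 ((Cond.smul_iff hω h hU x g).mp h2))]

end Pool.Agent.Lib.MP_5bc52d_co
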