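import Mathlib

/-!
# Sums of invariant functions modulo a prime, for the action of a group of prime power order
-/

open Finset

namespace Pool.Agent.Lib.MP_5bc52d_co

section
variable {G X : Type*} [Group G] [MulAction G X] [Fintype X] {p : ℕ} [hp : Fact p.Prime]

open Classical in
theorem dvd_sum_notFixed (hG : IsPGroup p G) (f : X → ℤ) (hf : ∀ (g : G) (x : X), f (g • x) = f x) :
    (p : ℤ) ∣ ∑ x ∈ (univ : Finset X) with ¬ (∀ g : G, g • x = x), f x := by
  set N := (univ : Finset X).filter (fun x => ¬ (∀ g : G, g • x = x)) with hN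
  have h1 : ∑ x ∈ N, f x = ∑ y ∈ N.image f, ∑ x ∈ N with f x = y, f x := by
    rw [Finset.sum_fiberwise_of_maps_to]
    intro x hx
    exact Finset.mem_image_of_mem f hx
  rw [h1]
  apply Finset.dvd_sum
  intro y _
  have h2 : ∑ x ∈ N with f x = y, f x = ((N.filter (fun x => f x = y)).card : ℤ) * y := by
    rw [Finset.sum_congr rfl (fun x hx => (Finset.mem_filter.mp hx).2), Finset.sum_const,
      nsmul_eq_mul]
  rw [h2]
  apply Dvd.dvd.mul_right
  let S : SubMulAction G X :=
    { carrier := {x | x ∈ N ∧ f x = y}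
      smul_mem' := by
        rintro c x ⟨hx, hy⟩
        refine ⟨?_, by rw [hf, hy]⟩
        rw [hN, Finset.mem_filter] at hx ⊢
        refine ⟨Finset.mem_univ _, fun h => hx.2 ?_⟩
        intro g
        have h3 := h (c * g * c⁻¹)
        rw [smul_smul, mul_assoc, mul_assoc, inv_mul_cancel, mul_one, mul_smul] at h3
        exact MulAction.injective c h3 }
  have h3 := hG.card_modEq_card_fixedPoints S
  have h4 : Nat.card (MulAction.fixedPoints G S) = 0 := by
    rw [Nat.card_eq_zero]
    left
    constructor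
    rintro ⟨⟨x, hx⟩, hfix⟩
    have hx1 : x ∈ N := hx.1
    rw [hN, Finset.mem_filter] at hx1
    apply hx1.2
    intro g
    have := hfix g
    exact congrArg Subtype.val this
  rw [h4] at h3
  have h5 : Nat.card S = (N.filter (fun x => f x = y)).card := by
    apply Nat.subtype_card
    intro x
    rw [Finset.mem_filter]
    exact Iff.rfl
  rw [h5] at h3
  exact_mod_cast (Nat.modEq_zero_iff_dvd.mp h3)

/-- If every fixed point has a value divisible by `p`, then the sum is divisible by `p`. -/
theorem dvd_sum_of_fixed (hG : IsPGroup p G) (f : X → ℤ) (hf : ∀ (g : G) (x : X), f (g • x) = f x)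
    (h : ∀ x, (∀ g : G, g • x = x) → (p : ℤ) ∣ f x) : (p : ℤ) ∣ ∑ x, f x := by
  classical
  rw [← Finset.sum_filter_add_sum_filter_not univ (fun x : X => ∀ g : G, g • x = x)]
  apply dvd_add
  · exact Finset.dvd_sum (fun x hx => h x (Finset.mem_filter.mp hx).2)
  · exact dvd_sum_notFixed hG f hf

/-- If exactly one fixed point has a value not divisible by `p`, then neither is the sum. -/
theorem not_dvd_sum_of_fixed (hG : IsPGroup p G) (f : X → ℤ)
    (hf : ∀ (g : G) (x : X), f (g • x) = f x) (x₀ : X) (hx₀ : ∀ g : G, g • x₀ = x₀)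
    (h₀ : ¬ (p : ℤ) ∣ f x₀)
    (h : ∀ x, x ≠ x₀ → (∀ g : G, g • x = x) → (p : ℤ) ∣ f x) : ¬ (p : ℤ) ∣ ∑ x, f x := by
  classical
  intro hd
  apply h₀
  rw [← Finset.sum_filter_add_sum_filter_not univ (fun x : X => ∀ g : G, g • x = x)] at hd
  have h1 := (Int.dvd_add_left (dvd_sum_notFixed hG f hf)).mp hd
  have h2 : x₀ ∈ (univ : Finset X).filter (fun x : X => ∀ g : G, g • x = x) :=
    Finset.mem_filter.mpr ⟨Finset.mem_univ _, hx₀⟩
  rw [← Finset.add_sum_erase _ _ h2] at h1
  refine (Int.dvd_add_left ?_).mp h1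
  apply Finset.dvd_sum
  intro x hx
  rw [Finset.mem_erase, Finset.mem_filter] at hx
  exact h x hx.1 hx.2.2

end

end Pool.Agent.Lib.MP_5bc52d_co
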