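import Mathlib
import Pool.Agent.Lib.MP_5bc52d_co.Sym.Equi
import Pool.Agent.Lib.MP_5bc52d_co.Sym.Fix

/-!
# Peeling off invariant parts in a unique way
-/

open Finset
open scoped Pointwise

set_option linter.unusedSectionVars false

namespace Pool.Agent.Lib.MP_5bc52d_co

section
variable {P : Type*} [DecidableEq P] {G : Type*} [Group G] [MulAction G P]

variable (G) in
/-- an increasing initial part and a decreasing final part of `M`, both invariant and not
containing `v₀` -/
structure Pr (r : P → P → Prop) (ω : P → ℤ) (v₀ : P) (M I J : Finset P) : Prop where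
  low : Wk r ω M I
  high : Wk (fun a b => r b a) ω M J
  disj : Disjoint I J
  vI : v₀ ∉ I
  vJ : v₀ ∉ J
  invI : ∀ g : G, g • I = I
  invJ : ∀ g : G, g • J = J

theorem Pr.swap {r : P → P → Prop} {ω : P → ℤ} {v₀ : P} {M I J : Finset P}
    (h : Pr G r ω v₀ M I J) : Pr G (fun a b => r b a) ω v₀ M J I :=
  ⟨h.high, h.low, h.disj.symm, h.vJ, h.vI, h.invJ, h.invI⟩

variable (G) in
/-- sets obtained from `{v₀}` by adding parts which can be removed in a unique way -/
inductive Peel (r : P → P → Prop) (ω : P → ℤ) (v₀ : P) : Finset P → Prop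
  | base : Peel r ω v₀ {v₀}
  | step (M I J : Finset P) : Pr G r ω v₀ M I J →
      (∀ I' J' : Finset P, Pr G r ω v₀ M I' J' → I'.card + J'.card = I.card + J.card →
        I' = I ∧ J' = J) → Peel r ω v₀ (M \ (I ∪ J)) → Peel r ω v₀ M

theorem Peel.swap {r : P → P → Prop} {ω : P → ℤ} {v₀ : P} {M : Finset P}
    (h : Peel G r ω v₀ M) : Peel G (fun a b => r b a) ω v₀ M := by
  induction h with
  | base => exact Peel.base
  | step M I J h1 h2 _ ih =>
    refine Peel.step M J I h1.swap (fun I' J' h3 h4 => ?_) ?_
    · have h5 := h2 J' I' h3.swap (by omega)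
      exact ⟨h5.2, h5.1⟩
    · rwa [Finset.union_comm]

theorem Peel.mem {r : P → P → Prop} {ω : P → ℤ} {v₀ : P} {M : Finset P}
    (h : Peel G r ω v₀ M) : v₀ ∈ M := by
  induction h with
  | base => exact Finset.mem_singleton_self _
  | step M I J _ _ _ ih => exact (Finset.mem_sdiff.mp ih).1

theorem Peel.inv {r : P → P → Prop} {ω : P → ℤ} {v₀ : P} (hv : ∀ g : G, g • v₀ = v₀)
    {M : Finset P} (h : Peel G r ω v₀ M) (g : G) : g • M = M := by
  induction h with
  | base => rw [Finset.smul_finset_singleton, hv]
  | step M I J h1 _ _ ih =>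
    have h2 : M = (M \ (I ∪ J)) ∪ (I ∪ J) := by
      rw [Finset.sdiff_union_of_subset]
      exact Finset.union_subset h1.low.1 h1.high.1
    rw [h2, Finset.smul_finset_union, ih, Finset.smul_finset_union, h1.invI, h1.invJ]

end

section
variable {P : Type*} [Fintype P] [DecidableEq P] [PartialOrder P]
variable {G : Type*} [Group G] [MulAction G P] {p : ℕ} [hp : Fact p.Prime]

theorem term_smul {ω : P → ℤ} (hω : Function.Injective ω) (h : Act G ω) (l : List ℕ) (c : ℕ)
    {U M : Finset P} (hU : Up U) (hUi : ∀ g : G, g • U = U) (hMi : ∀ g : G, g • M = M) (g : G)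
    (x : Finset P × Finset P × Finset P)
    [Decidable (Cond (fun a b : P => a < b) ω c U M (g • x))]
    [Decidable (Cond (fun a b : P => a < b) ω c U M x)] :
    (if Cond (fun a b : P => a < b) ω c U M (g • x) then
      (-1) ^ (g • x).2.2.card * W (fun a b : P => a < b) ω l (U \ (g • x).1) (g • x).2.1 else 0) =
    (if Cond (fun a b : P => a < b) ω c U M x then
      (-1) ^ x.2.2.card * W (fun a b : P => a < b) ω l (U \ x.1) x.2.1 else (0 : ℤ)) := by
  have h1 := Cond.smul_iff (c := c) (M := M) hω h hU x g
  rw [hUi, hMi] at h1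
  by_cases h2 : Cond (fun a b : P => a < b) ω c U M x
  · rw [if_pos h2, if_pos (h1.mpr h2)]
    obtain ⟨I, M', J⟩ := x
    change (-1) ^ (g • J).card * W _ ω l (U \ g • I) (g • M') = _
    have h3 : U \ g • I = g • (U \ I) := by rw [Finset.smul_finset_sdiff, hUi]
    rw [h3, W_smul hω h l (hU.sdiff h2.1.dn), Finset.card_smul_finset]
  · rw [if_neg h2, if_neg (fun h3 => h2 (h1.mp h3))]

theorem mem_of_not_dvd {ω : P → ℤ} (hω : Function.Injective ω) (h : Act G ω)
    (hG : IsPGroup p G) {v₀ : P} (hv : ∀ x : P, (∀ g : G, g • x = x) → x = v₀) (l : List ℕ)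
    {U : Finset P} (hU : Up U) (hUi : ∀ g : G, g • U = U) {M : Finset P}
    (hMi : ∀ g : G, g • M = M) (hW : ¬ (p : ℤ) ∣ W (fun a b : P => a < b) ω l U M) :
    v₀ ∈ M := by
  classical
  induction l generalizing U M with
  | nil =>
    rw [W] at hW
    split_ifs at hW with h1
    · obtain ⟨x, hx⟩ := Finset.card_eq_one.mp h1.2
      rw [hx, Finset.mem_singleton]
      symm
      apply hv
      intro g
      have h2 := hMi g
      rw [hx, Finset.smul_finset_singleton, Finset.singleton_inj] at h2
      exact h2
    · exact absurd (dvd_zero _) hW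
  | cons c l ih =>
    by_contra hcon
    apply hW
    rw [W]
    apply dvd_sum_of_fixed hG _ (fun g x => term_smul hω h l c hU hUi hMi g x)
    intro x hx
    by_cases h1 : Cond (fun a b : P => a < b) ω c U M x
    · rw [if_pos h1]
      apply Dvd.dvd.mul_left
      by_contra h2
      apply hcon
      have h3 : v₀ ∈ x.2.1 := by
        refine ih (hU.sdiff h1.1.dn) (fun g => ?_) (fun g => ?_) h2
        · rw [Finset.smul_finset_sdiff, hUi]
          have := congrArg Prod.fst (hx g)
          rw [Prod.smul_fst] at this
          rw [this]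
        · exact congrArg (fun y => y.2.1) (hx g)
      rw [← h1.2.2.2.2]
      exact Finset.mem_union_left _ (Finset.mem_union_right _ h3)
    · rw [if_neg h1]
      exact dvd_zero _

theorem Peel.exists_word {ω : P → ℤ} (hω : Function.Injective ω) (h : Act G ω)
    (hG : IsPGroup p G) {v₀ : P} (hv₀ : ∀ g : G, g • v₀ = v₀)
    (hv : ∀ x : P, (∀ g : G, g • x = x) → x = v₀) {M : Finset P}
    (hM : Peel G (fun a b : P => a < b) ω v₀ M) :
    ∃ l : List ℕ, ∀ U : Finset P, Up U → (∀ g : G, g • U = U) →
      Dn (fun a b : P => a < b) U M → ¬ (p : ℤ) ∣ W (fun a b : P => a < b) ω l U M := by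
  classical
  have hp1 : ¬ (p : ℤ) ∣ 1 := by
    intro h1
    have h2 : p ∣ 1 := by exact_mod_cast h1
    exact hp.out.one_lt.ne' (Nat.dvd_one.mp h2)
  induction hM with
  | base =>
    refine ⟨[], fun U hU _ hD => ?_⟩
    rw [W, if_pos]
    · exact hp1
    · refine ⟨⟨hD.1, fun a ha b hb hab => ?_⟩, Finset.card_singleton _⟩
      exfalso
      have h1 := hD.2 a ha b hb hab
      rw [Finset.mem_singleton] at h1 hb
      rw [h1, hb] at hab
      exact lt_irrefl _ hab
  | step M I J h1 h2 h3 ih =>
    obtain ⟨l, hl⟩ := ih
    refine ⟨(I.card + J.card) :: l, fun U hU hUi hD => ?_⟩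
    have hMi : ∀ g : G, g • M = M := (Peel.step M I J h1 h2 h3).inv hv₀
    rw [W]
    have hC : Cond (fun a b : P => a < b) ω (I.card + J.card) U M (I, M \ (I ∪ J), J) := by
      refine ⟨⟨h1.low.1.trans hD.1, fun a ha b hb hab => ?_⟩, ⟨?_, fun a ha b hb hab => ?_⟩,
        ⟨?_, fun a ha b hb hab => ?_⟩, rfl, ?_⟩
      · exact h1.low.2 a (hD.2 a ha b (h1.low.1 hb) hab) b hb hab
      · intro x hx
        rw [Finset.mem_sdiff, Finset.mem_union] at hx
        change x ∈ U \ I
        rw [Finset.mem_sdiff]
        exact ⟨hD.1 hx.1, fun hh => hx.2 (Or.inl hh)⟩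
      · change a ∈ M \ (I ∪ J)
        change a ∈ U \ I at ha
        change b ∈ M \ (I ∪ J) at hb
        rw [Finset.mem_sdiff] at ha
        rw [Finset.mem_sdiff, Finset.mem_union] at hb ⊢
        have haM := hD.2 a ha.1 b hb.1 hab
        refine ⟨haM, ?_⟩
        rintro (hh | hh)
        · exact ha.2 hh
        · exact hb.2 (Or.inr (h1.high.2 b hb.1 a hh hab).1)
      · intro x hx
        change x ∈ (U \ I) \ (M \ (I ∪ J))
        change x ∈ J at hx
        simp only [Finset.mem_sdiff, Finset.mem_union]
        exact ⟨⟨hD.1 (h1.high.1 hx), fun hh => Finset.disjoint_left.mp h1.disj hh hx⟩,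
          fun hh => hh.2 (Or.inr hx)⟩
      · change a ∈ (U \ I) \ (M \ (I ∪ J)) at ha
        change b ∈ J at hb
        simp only [Finset.mem_sdiff, Finset.mem_union] at ha
        have haM := hD.2 a ha.1.1 b (h1.high.1 hb) hab
        have haJ : a ∈ J := by
          by_contra hh
          exact ha.2 ⟨haM, fun hh' => hh'.elim ha.1.2 hh⟩
        refine ⟨haJ, ?_⟩
        have h4 := (h1.high.2 b (h1.high.1 hb) a haJ hab).2
        simp only [Pi.neg_apply]
        omega
      · change I ∪ (M \ (I ∪ J)) ∪ J = M
        ext x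
        simp only [Finset.mem_union, Finset.mem_sdiff]
        constructor
        · rintro ((hx | hx) | hx)
          · exact h1.low.1 hx
          · exact hx.1
          · exact h1.high.1 hx
        · intro hx
          by_cases hxI : x ∈ I
          · exact Or.inl (Or.inl hxI)
          · by_cases hxJ : x ∈ J
            · exact Or.inr hxJ
            · exact Or.inl (Or.inr ⟨hx, fun hh => hh.elim hxI hxJ⟩)
    apply not_dvd_sum_of_fixed hG _
      (fun g x => term_smul hω h l (I.card + J.card) hU hUi hMi g x) (I, M \ (I ∪ J), J)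
    · intro g
      rw [Prod.smul_mk, Prod.smul_mk, Finset.smul_finset_sdiff, Finset.smul_finset_union, hMi,
        h1.invI, h1.invJ]
    · rw [if_pos hC, (isUnit_one.neg.pow _).dvd_mul_left]
      apply hl (U \ I) (hU.sdiff hC.1.dn)
      · intro g
        rw [Finset.smul_finset_sdiff, hUi, h1.invI]
      · exact hC.2.1
    · intro x hx hfix
      by_cases h4 : Cond (fun a b : P => a < b) ω (I.card + J.card) U M x
      · rw [if_pos h4]
        apply Dvd.dvd.mul_left
        by_contra h5
        apply hx
        obtain ⟨I', M', J'⟩ := x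
        have hI' : ∀ g : G, g • I' = I' := fun g => congrArg Prod.fst (hfix g)
        have hM' : ∀ g : G, g • M' = M' := fun g => congrArg (fun y => y.2.1) (hfix g)
        have hJ' : ∀ g : G, g • J' = J' := fun g => congrArg (fun y => y.2.2) (hfix g)
        have h6 : v₀ ∈ M' := by
          refine mem_of_not_dvd hω h hG hv l (hU.sdiff h4.1.dn) (fun g => ?_) hM' h5
          rw [Finset.smul_finset_sdiff, hUi]
          change U \ g • I' = U \ I'
          rw [hI']
        obtain ⟨c1, c2, c3, c4, c5⟩ := h4
        dsimp only at c1 c2 c3 c4 c5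
        have hIM : I' ⊆ M := by
          rw [← c5]
          exact fun x hx => Finset.mem_union_left _ (Finset.mem_union_left _ hx)
        have hJM : J' ⊆ M := by
          rw [← c5]
          exact fun x hx => Finset.mem_union_right _ hx
        have hMI : ∀ x ∈ M', x ∉ I' := fun x hx => (Finset.mem_sdiff.mp (c2.1 hx)).2
        have hJI : ∀ x ∈ J', x ∉ I' ∧ x ∉ M' := by
          intro x hx
          have := c3.1 hx
          rw [Finset.mem_sdiff, Finset.mem_sdiff] at this
          exact ⟨this.1.2, this.2⟩
        have h7 : Pr G (fun a b : P => a < b) ω v₀ M I' J' := by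
          refine ⟨⟨hIM, fun a ha b hb hab => c1.2 a (hD.1 ha) b hb hab⟩,
            ⟨hJM, fun a ha b hb hab => ?_⟩, ?_, hMI v₀ h6, fun hh => (hJI v₀ hh).2 h6, hI', hJ'⟩
          · -- `b < a`, `b ∈ J'`, `a ∈ M`
            have hbU : b ∈ U := hD.1 (hJM hb)
            have haI : a ∉ I' := fun hh => (hJI b hb).1 (c1.2 b hbU a hh hab).1
            have haM : a ∉ M' := fun hh =>
              (hJI b hb).2 (c2.2 b (Finset.mem_sdiff.mpr ⟨hbU, (hJI b hb).1⟩) a hh hab)
            have haJ : a ∈ J' := by
              rw [← c5] at ha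
              simp only [Finset.mem_union] at ha
              rcases ha with (ha | ha) | ha
              · exact absurd ha haI
              · exact absurd ha haM
              · exact ha
            refine ⟨haJ, ?_⟩
            have h8 := (c3.2 b (by
              rw [Finset.mem_sdiff, Finset.mem_sdiff]
              exact ⟨⟨hbU, (hJI b hb).1⟩, (hJI b hb).2⟩) a haJ hab).2
            simp only [Pi.neg_apply] at h8
            omega
          · rw [Finset.disjoint_left]
            exact fun x hx hx' => (hJI x hx').1 hx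
        have h8 := h2 I' J' h7 c4
        obtain ⟨rfl, rfl⟩ := h8
        have h9 : M' = M \ (I' ∪ J') := by
          ext x
          rw [Finset.mem_sdiff, Finset.mem_union]
          constructor
          · intro hx
            refine ⟨?_, ?_⟩
            · rw [← c5]
              exact Finset.mem_union_left _ (Finset.mem_union_right _ hx)
            · rintro (hh | hh)
              · exact hMI x hx hh
              · exact (hJI x hh).2 hx
          · rintro ⟨hx, hx'⟩
            rw [← c5] at hx
            simp only [Finset.mem_union] at hx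
            rcases hx with (hx | hx) | hx
            · exact absurd (Or.inl hx) hx'
            · exact hx
            · exact absurd (Or.inr hx) hx'
        rw [h9]
      · rw [if_neg h4]
        exact dvd_zero _

end

end Pool.Agent.Lib.MP_5bc52d_co
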