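import Mathlib
import Pool.Agent.Lib.MP_5bc52d_co.Sym.Peel

/-!
# Two situations in which everything can be peeled off
-/

open Finset
open scoped Pointwise

set_option linter.unusedSectionVars false

namespace Pool.Agent.Lib.MP_5bc52d_co

variable {P : Type*} [Fintype P] [DecidableEq P] {G : Type*} [Group G] [MulAction G P]

theorem inv_of_smul_mem {S : Finset P} (h : ∀ (g : G), ∀ x ∈ S, g • x ∈ S) (g : G) :
    g • S = S := by
  apply Finset.Subset.antisymm
  · intro x hx
    rw [← Finset.inv_smul_mem_iff] at hx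
    have := h g _ hx
    rwa [smul_inv_smul] at this
  · intro x hx
    rw [← Finset.inv_smul_mem_iff]
    exact h g⁻¹ x hx

theorem smul_mem_of_inv {S : Finset P} (h : ∀ g : G, g • S = S) (g : G) {x : P} (hx : x ∈ S) :
    g • x ∈ S := by
  have := (Finset.smul_mem_smul_finset_iff g (s := S) (b := x)).mpr hx
  rwa [h g] at this

theorem wf {r : P → P → Prop} (ht : ∀ x y z, r x y → r y z → r x z) (hi : ∀ x, ¬ r x x) :
    WellFounded r := by
  have : IsTrans P r := ⟨ht⟩
  have : Std.Irrefl r := ⟨hi⟩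
  exact Finite.wellFounded_of_trans_of_irrefl r

section
variable {r : P → P → Prop} {ω : P → ℤ} {v₀ : P}

/-- the largest invariant increasing initial part not containing `v₀` -/
theorem exists_low (r : P → P → Prop) (ω : P → ℤ) (v₀ : P) (M : Finset P) :
    ∃ A : Finset P, Wk r ω M A ∧ v₀ ∉ A ∧ (∀ g : G, g • A = A) ∧
      ∀ I : Finset P, Wk r ω M I → v₀ ∉ I → (∀ g : G, g • I = I) → I ⊆ A := by
  classical
  refine ⟨M.filter (fun b => ∃ I : Finset P, Wk r ω M I ∧ v₀ ∉ I ∧ (∀ g : G, g • I = I) ∧ b ∈ I),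
    ⟨Finset.filter_subset _ _, fun a ha b hb hab => ?_⟩, fun h => ?_, ?_, fun I h1 h2 h3 b hb => ?_⟩
  · rw [Finset.mem_filter] at hb ⊢
    obtain ⟨I, h1, h2, h3, h4⟩ := hb.2
    have h5 := h1.2 a ha b h4 hab
    exact ⟨⟨ha, I, h1, h2, h3, h5.1⟩, h5.2⟩
  · rw [Finset.mem_filter] at h
    obtain ⟨I, h1, h2, h3, h4⟩ := h.2
    exact h2 h4
  · apply inv_of_smul_mem
    intro g x hx
    rw [Finset.mem_filter] at hx ⊢
    obtain ⟨I, h1, h2, h3, h4⟩ := hx.2
    have h5 := smul_mem_of_inv h3 g h4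
    exact ⟨h1.1 h5, I, h1, h2, h3, h5⟩
  · rw [Finset.mem_filter]
    exact ⟨h1.1 hb, I, h1, h2, h3, hb⟩

theorem low_nonempty (ht : ∀ x y z, r x y → r y z → r x z) (hi : ∀ x, ¬ r x x)
    (hr : ∀ (g : G) (a b : P), r a b → r (g • a) (g • b)) (hv₀ : ∀ g : G, g • v₀ = v₀)
    {M : Finset P} (hM : ∀ g : G, g • M = M) {b : P} (hb : b ∈ M) (hbv : r b v₀)
    {A : Finset P}
    (hA : ∀ I : Finset P, Wk r ω M I → v₀ ∉ I → (∀ g : G, g • I = I) → I ⊆ A) : A.Nonempty := by
  classical
  obtain ⟨m, ⟨hmM, hmv⟩, hmin⟩ := (wf ht hi).has_min {x | x ∈ M ∧ r x v₀} ⟨b, hb, hbv⟩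
  refine ⟨m, hA (M.filter (fun x => r x v₀ ∧ ∀ y ∈ M, ¬ r y x))
    ⟨Finset.filter_subset _ _, fun a ha b hb hab => ?_⟩ (fun h => ?_) ?_ ?_⟩
  · rw [Finset.mem_filter] at hb
    exact absurd hab (hb.2.2 a ha)
  · rw [Finset.mem_filter] at h
    exact hi _ h.2.1
  · apply inv_of_smul_mem
    intro g x hx
    rw [Finset.mem_filter] at hx ⊢
    refine ⟨smul_mem_of_inv hM g hx.1, ?_, fun y hy hyx => ?_⟩
    · have := hr g _ _ hx.2.1
      rwa [hv₀] at this
    · have h1 := hr g⁻¹ _ _ hyx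
      rw [inv_smul_smul] at h1
      exact hx.2.2 _ (smul_mem_of_inv hM g⁻¹ hy) h1
  · rw [Finset.mem_filter]
    exact ⟨hmM, hmv, fun y hy hym => hmin y ⟨hy, ht _ _ _ hym hmv⟩ hym⟩

/-- all elements comparable with `v₀` -/
theorem peel_of_comparable (ht : ∀ x y z, r x y → r y z → r x z) (hi : ∀ x, ¬ r x x)
    (hr : ∀ (g : G) (a b : P), r a b → r (g • a) (g • b)) (hv₀ : ∀ g : G, g • v₀ = v₀)
    (hc : ∀ x, x = v₀ ∨ r x v₀ ∨ r v₀ x) (n : ℕ) {M : Finset P} (hn : M.card ≤ n)
    (hM : ∀ g : G, g • M = M) (hv : v₀ ∈ M) : Peel G r ω v₀ M := by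
  induction n generalizing M with
  | zero =>
    exfalso
    have := Finset.card_pos.mpr ⟨v₀, hv⟩
    omega
  | succ n ih =>
    by_cases hM1 : M = {v₀}
    · rw [hM1]
      exact Peel.base
    obtain ⟨A, a1, a2, a3, a4⟩ := exists_low (G := G) r ω v₀ M
    obtain ⟨B, b1, b2, b3, b4⟩ := exists_low (G := G) (fun a b => r b a) ω v₀ M
    have hdis : Disjoint A B := by
      rw [Finset.disjoint_left]
      intro x hxA hxB
      rcases hc x with h | h | h
      · exact a2 (h ▸ hxA)
      · exact b2 (b1.2 v₀ hv x hxB h).1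
      · exact a2 (a1.2 v₀ hv x hxA h).1
    have hne : (A ∪ B).Nonempty := by
      have h1 : ∃ b ∈ M, b ≠ v₀ := by
        by_contra hcon
        push Not at hcon
        exact hM1 (Finset.eq_singleton_iff_unique_mem.mpr ⟨hv, hcon⟩)
      obtain ⟨b, hb, hbv⟩ := h1
      rcases hc b with h | h | h
      · exact absurd h hbv
      · exact (low_nonempty (ω := ω) ht hi hr hv₀ hM hb h a4).mono Finset.subset_union_left
      · exact (low_nonempty (ω := ω) (r := fun a b => r b a)
          (fun x y z h1 h2 => ht z y x h2 h1) hi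
          (fun g a b h1 => hr g b a h1) hv₀ hM hb h b4).mono Finset.subset_union_right
    have hsub : A ∪ B ⊆ M := Finset.union_subset a1.1 b1.1
    refine Peel.step M A B ⟨a1, b1, hdis, a2, b2, a3, b3⟩ (fun I' J' h1 h2 => ?_) (ih ?_ ?_ ?_)
    · have h3 := a4 I' h1.low h1.vI h1.invI
      have h4 := b4 J' h1.high h1.vJ h1.invJ
      have h5 := Finset.card_le_card h3
      have h6 := Finset.card_le_card h4
      exact ⟨Finset.eq_of_subset_of_card_le h3 (by omega),
        Finset.eq_of_subset_of_card_le h4 (by omega)⟩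
    · have h1 := Finset.card_sdiff_add_card_eq_card hsub
      have h2 := Finset.card_pos.mpr hne
      omega
    · intro g
      rw [Finset.smul_finset_sdiff, Finset.smul_finset_union, hM, a3, b3]
    · rw [Finset.mem_sdiff, Finset.mem_union]
      exact ⟨hv, fun h => h.elim a2 b2⟩

end

section
variable {p : ℕ} [hp : Fact p.Prime]

variable (G) in
open Classical in
/-- the orbit as a finite set -/
noncomputable def orb (x : P) : Finset P := univ.filter (fun y => y ∈ MulAction.orbit G x)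

theorem mem_orb {x y : P} : y ∈ orb G x ↔ y ∈ MulAction.orbit G x := by
  classical
  simp [orb]

theorem self_mem_orb (x : P) : x ∈ orb G x := mem_orb.mpr (MulAction.mem_orbit_self x)

theorem smul_mem_orb {x y : P} (h : y ∈ orb G x) (g : G) : g • y ∈ orb G x := by
  rw [mem_orb, MulAction.mem_orbit_iff] at h ⊢
  obtain ⟨k, hk⟩ := h
  exact ⟨g * k, by rw [mul_smul, hk]⟩

theorem orb_inv (x : P) (g : G) : g • orb G x = orb G x :=
  inv_of_smul_mem (fun g _ hy => smul_mem_orb hy g) g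

theorem orb_subset {S : Finset P} (hS : ∀ g : G, g • S = S) {x : P} (hx : x ∈ S) :
    orb G x ⊆ S := by
  intro y hy
  rw [mem_orb, MulAction.mem_orbit_iff] at hy
  obtain ⟨g, hg⟩ := hy
  rw [← hg]
  exact smul_mem_of_inv hS g hx

theorem orb_symm {x y : P} (h : y ∈ orb G x) : x ∈ orb G y := by
  rw [mem_orb] at h ⊢
  exact (MulAction.mem_orbit_symm).mp h

theorem card_orb_eq (x : P) : Nat.card (MulAction.orbit G x) = (orb G x).card := by
  apply Nat.subtype_card
  intro y
  exact mem_orb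

/-- an invariant set with as many elements as an orbit is that orbit -/
theorem eq_orb_of_card (hG : IsPGroup p G)
    (hd : ∀ x y : P, (orb G x).card = (orb G y).card → y ∈ orb G x)
    {S : Finset P} (hS : ∀ g : G, g • S = S) {x : P} (hc : S.card = (orb G x).card) :
    S = orb G x := by
  classical
  by_cases hx : x ∈ S
  · symm
    exact Finset.eq_of_subset_of_card_le (orb_subset hS hx) hc.le
  exfalso
  have hpow : ∀ y : P, ∃ n : ℕ, (orb G y).card = p ^ n := by
    intro y
    rw [← card_orb_eq]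
    exact hG.card_orbit y
  choose e he using hpow
  have hp2 : 2 ≤ p := hp.out.two_le
  have h1 : ∀ y ∈ S, e y < e x := by
    intro y hy
    have h2 : (orb G y).card ≤ (orb G x).card := by
      rw [← hc]
      exact Finset.card_le_card (orb_subset hS hy)
    have h3 : (orb G y).card ≠ (orb G x).card := fun h4 => hx (orb_subset hS hy (hd y x h4))
    rw [he, he] at h2 h3
    have h5 : p ^ e y < p ^ e x := lt_of_le_of_ne h2 h3
    exact (Nat.pow_lt_pow_iff_right (by omega)).mp h5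
  have h2 : S.card = ∑ j ∈ S.image e, p ^ j := by
    rw [Finset.card_eq_sum_card_image e S]
    apply Finset.sum_congr rfl
    intro j hj
    rw [Finset.mem_image] at hj
    obtain ⟨y, hy, hyj⟩ := hj
    rw [← hyj, ← he y]
    congr 1
    ext z
    rw [Finset.mem_filter]
    constructor
    · rintro ⟨_, hz⟩
      apply hd
      rw [he, he, hz]
    · intro hz
      refine ⟨orb_subset hS hy hz, ?_⟩
      have h3 : (orb G z).card = (orb G y).card := by
        apply congrArg
        apply Finset.Subset.antisymm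
        · exact orb_subset (orb_inv y) hz
        · exact orb_subset (orb_inv z) (orb_symm hz)
      rw [he, he] at h3
      exact Nat.pow_right_injective hp2 h3
  have h3 : ∑ j ∈ S.image e, p ^ j < p ^ e x := by
    apply Nat.geomSum_lt hp2
    intro j hj
    rw [Finset.mem_image] at hj
    obtain ⟨y, hy, rfl⟩ := hj
    exact h1 y hy
  rw [hc, he] at h2
  omega

variable {r : P → P → Prop} {ω : P → ℤ} {v₀ : P}

theorem orb_antichain (ht : ∀ x y z, r x y → r y z → r x z) (hi : ∀ x, ¬ r x x)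
    (hr : ∀ (g : G) (a b : P), r a b → r (g • a) (g • b)) {x y z : P} (hy : y ∈ orb G x)
    (hz : z ∈ orb G x) : ¬ r y z := by
  intro hyz
  obtain ⟨m, hm, hmin⟩ := (wf ht hi).has_min {w | w ∈ orb G x} ⟨x, self_mem_orb x⟩
  have h1 : m ∈ orb G z := orb_subset (orb_inv z) (orb_symm hz) hm
  rw [mem_orb, MulAction.mem_orbit_iff] at h1
  obtain ⟨g, hg⟩ := h1
  apply hmin (g • y) (smul_mem_orb hy g)
  rw [← hg]
  exact hr g _ _ hyz

/-- adding an orbit below -/
theorem Peel.add (hG : IsPGroup p G)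
    (hd : ∀ x y : P, (orb G x).card = (orb G y).card → y ∈ orb G x)
    (ht : ∀ x y z, r x y → r y z → r x z) (hi : ∀ x, ¬ r x x)
    (hr : ∀ (g : G) (a b : P), r a b → r (g • a) (g • b)) (hv₀ : ∀ g : G, g • v₀ = v₀)
    {C : Finset P} (hC : Peel G r ω v₀ C) {x : P} (hx : x ∉ C)
    (h1 : ∀ c ∈ C, ∀ y ∈ orb G x, ¬ r c y) (h2 : ∃ c ∈ C, ∃ y ∈ orb G x, r y c) :
    Peel G r ω v₀ (C ∪ orb G x) := by
  have hCi : ∀ g : G, g • C = C := hC.inv hv₀
  have hdis : Disjoint C (orb G x) := by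
    rw [Finset.disjoint_left]
    intro y hyC hy
    exact hx (orb_subset hCi hyC (orb_symm hy))
  have hvO : v₀ ∉ orb G x := fun h => Finset.disjoint_left.mp hdis hC.mem h
  refine Peel.step _ (orb G x) ∅ ⟨⟨Finset.subset_union_right, fun a ha b hb hab => ?_⟩,
    ⟨Finset.empty_subset _, fun a _ b hb => by simp at hb⟩, Finset.disjoint_empty_right _,
    hvO, by simp, orb_inv x, by simp⟩ (fun I' J' h3 h4 => ?_) ?_
  · exfalso
    rw [Finset.mem_union] at ha
    rcases ha with ha | ha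
    · exact h1 a ha b hb hab
    · exact orb_antichain ht hi hr ha hb hab
  · have h5 : I' ∪ J' = orb G x := by
      apply eq_orb_of_card hG hd
      · intro g
        rw [Finset.smul_finset_union, h3.invI, h3.invJ]
      · rw [Finset.card_union_of_disjoint h3.disj, h4, Finset.card_empty, add_zero]
    have h6 : J' = ∅ := by
      by_contra h7
      obtain ⟨z, hz⟩ := Finset.nonempty_iff_ne_empty.mpr h7
      have h8 : z ∈ orb G x := by
        rw [← h5]
        exact Finset.mem_union_right _ hz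
      obtain ⟨c, hc, y, hy, hyc⟩ := h2
      have h9 : y ∈ J' := by
        apply orb_subset h3.invJ hz
        exact orb_subset (orb_inv z) (orb_symm h8) hy
      have h10 := (h3.high.2 c (Finset.mem_union_left _ hc) y h9 hyc).1
      have h11 : c ∈ orb G x := by
        rw [← h5]
        exact Finset.mem_union_right _ h10
      exact Finset.disjoint_left.mp hdis hc h11
    rw [h6, Finset.union_empty] at h5
    exact ⟨h5, h6⟩
  · rw [Finset.union_empty, Finset.union_sdiff_right, Finset.sdiff_eq_self_of_disjoint hdis]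
    exact hC

/-- order-convex -/
def Cvx (r : P → P → Prop) (C : Finset P) : Prop :=
  ∀ a ∈ C, ∀ b ∈ C, ∀ x, r a x → r x b → x ∈ C

theorem Peel.extend (hG : IsPGroup p G)
    (hd : ∀ x y : P, (orb G x).card = (orb G y).card → y ∈ orb G x)
    (ht : ∀ x y z, r x y → r y z → r x z) (hi : ∀ x, ¬ r x x)
    (hr : ∀ (g : G) (a b : P), r a b → r (g • a) (g • b)) (hv₀ : ∀ g : G, g • v₀ = v₀)
    {C : Finset P} (hC : Peel G r ω v₀ C) (hx : Cvx r C) {a b : P} (ha : a ∉ C) (hb : b ∈ C)
    (hab : r a b) : ∃ C' : Finset P, Peel G r ω v₀ C' ∧ Cvx r C' ∧ C.card < C'.card := by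
  have hCi : ∀ g : G, g • C = C := hC.inv hv₀
  obtain ⟨x, ⟨hxC, b', hb', hxb⟩, hmax⟩ :=
    (wf (r := fun a b => r b a) (fun x y z h1 h2 => ht z y x h2 h1) hi).has_min
      {a | a ∉ C ∧ ∃ b ∈ C, r a b} ⟨a, ha, b, hb, hab⟩
  have hO1 : ∀ y ∈ orb G x, y ∉ C ∧ ∃ b ∈ C, r y b := by
    intro y hy
    have h1 := hy
    rw [mem_orb, MulAction.mem_orbit_iff] at h1
    obtain ⟨g, hg⟩ := h1
    refine ⟨fun h => hxC (orb_subset hCi h (orb_symm hy)), g • b', smul_mem_of_inv hCi g hb', ?_⟩
    rw [← hg]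
    exact hr g _ _ hxb
  have hO2 : ∀ y ∈ orb G x, ∀ z, r y z → z ∉ C → ¬ ∃ b ∈ C, r z b := by
    intro y hy z hyz hzC hzb
    obtain ⟨c, hc, hzc⟩ := hzb
    rw [mem_orb, MulAction.mem_orbit_iff] at hy
    obtain ⟨g, hg⟩ := hy
    have h1 := hr g⁻¹ _ _ hyz
    rw [← hg, inv_smul_smul] at h1
    refine hmax (g⁻¹ • z) ⟨fun h => hzC ?_, g⁻¹ • c, smul_mem_of_inv hCi _ hc, hr _ _ _ hzc⟩ h1
    have := smul_mem_of_inv hCi g h
    rwa [smul_inv_smul] at this
  have h1 : ∀ c ∈ C, ∀ y ∈ orb G x, ¬ r c y := by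
    intro c hc y hy hcy
    obtain ⟨h2, c', hc', h3⟩ := hO1 y hy
    exact h2 (hx c hc c' hc' y hcy h3)
  refine ⟨C ∪ orb G x, hC.add hG hd ht hi hr hv₀ hxC h1 ⟨b', hb', x, self_mem_orb x, hxb⟩,
    fun a ha b hb z haz hzb => ?_, ?_⟩
  · rw [Finset.mem_union] at ha hb ⊢
    rcases ha with ha | ha
    · rcases hb with hb | hb
      · exact Or.inl (hx a ha b hb z haz hzb)
      · exact absurd (ht _ _ _ haz hzb) (h1 a ha b hb)
    · rcases hb with hb | hb
      · left
        by_contra hz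
        exact hO2 a ha z haz hz ⟨b, hb, hzb⟩
      · exact absurd (ht _ _ _ haz hzb) (orb_antichain ht hi hr ha hb)
  · apply Finset.card_lt_card
    rw [Finset.ssubset_iff_of_subset Finset.subset_union_left]
    exact ⟨x, Finset.mem_union_right _ (self_mem_orb x), hxC⟩

theorem peel_of_distinct (hG : IsPGroup p G)
    (hd : ∀ x y : P, (orb G x).card = (orb G y).card → y ∈ orb G x)
    (ht : ∀ x y z, r x y → r y z → r x z) (hi : ∀ x, ¬ r x x)
    (hr : ∀ (g : G) (a b : P), r a b → r (g • a) (g • b)) (hv₀ : ∀ g : G, g • v₀ = v₀)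
    (hconn : ∀ C : Finset P, v₀ ∈ C → (∀ a b, r a b → (a ∈ C ↔ b ∈ C)) → C = univ) :
    Peel G r ω v₀ univ := by
  classical
  have hne : ((univ : Finset (Finset P)).filter (fun C => Peel G r ω v₀ C ∧ Cvx r C)).Nonempty := by
    refine ⟨{v₀}, ?_⟩
    rw [Finset.mem_filter]
    refine ⟨Finset.mem_univ _, Peel.base, fun a ha b hb x hax hxb => ?_⟩
    rw [Finset.mem_singleton] at ha hb
    rw [ha] at hax
    rw [hb] at hxb
    exact absurd (ht _ _ _ hax hxb) (hi _)
  obtain ⟨C, hC, hmax⟩ := Finset.exists_max_image _ Finset.card hne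
  rw [Finset.mem_filter] at hC
  have hmax' : ∀ C' : Finset P, Peel G r ω v₀ C' → Cvx r C' → ¬ C.card < C'.card := by
    intro C' h1 h2
    have := hmax C' (Finset.mem_filter.mpr ⟨Finset.mem_univ _, h1, h2⟩)
    omega
  have h1 : C = univ := by
    apply hconn C hC.2.1.mem
    intro a b hab
    constructor
    · intro ha
      by_contra hb
      have hsw : Cvx (fun a b => r b a) C := fun a ha b hb x hax hxb => hC.2.2 b hb a ha x hxb hax
      obtain ⟨C', h2, h3, h4⟩ := hC.2.1.swap.extend (r := fun a b => r b a) hG hd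
        (fun x y z h1 h2 => ht z y x h2 h1) hi (fun g a b h1 => hr g b a h1) hv₀ hsw hb ha hab
      exact hmax' C' h2.swap (fun a ha b hb x hax hxb => h3 b hb a ha x hxb hax) h4
    · intro hb
      by_contra ha
      obtain ⟨C', h2, h3, h4⟩ := hC.2.1.extend hG hd ht hi hr hv₀ hC.2.2 ha hb hab
      exact hmax' C' h2 h3 h4
  rw [← h1]
  exact hC.2.1

end

end Pool.Agent.Lib.MP_5bc52d_co
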