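import Mathlib
import Pool.Agent.Lib.MP_5bc52d_co.Sym.Rep
import Pool.Agent.Lib.MP_5bc52d_co.Cyc.Deg

/-!
# A generating function with a nonzero signed count is irreducible
-/

open Finset Polynomial

set_option linter.unusedSectionVars false

namespace Pool.Agent.Lib.MP_5bc52d_co

variable {Q : Subring R} {P : Type*} [Fintype P] [DecidableEq P] [PartialOrder P]

theorem coeff_zero_Gam (ω : P → ℕ) (U : Finset P) :
    MvPowerSeries.coeff 0 (Gam ω U) = if U = ∅ then 1 else 0 := by
  rw [coeff_Gam]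
  split_ifs with h
  · subst h
    have h1 : Nat.card (Sol ω (∅ : Finset P) 0) = 1 := by
      rw [Nat.card_eq_one_iff_unique]
      refine ⟨⟨fun f g => Subtype.ext ?_⟩, ⟨⟨fun _ => 0, fun _ _ => rfl, ?_, ?_⟩⟩⟩
      · funext p
        rw [f.2.1 p (by simp), g.2.1 p (by simp)]
      · intro a ha
        simp at ha
      · simp [cnt]
    rw [h1]
    simp
  · have h1 : Sol ω U 0 = ∅ := by
      rw [Set.eq_empty_iff_forall_notMem]
      intro f hf
      have h2 := deg_cnt U f
      rw [hf.2.2, Finsupp.sum_zero_index] at h2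
      exact h (Finset.card_eq_zero.mp h2.symm)
    rw [h1]
    simp

theorem irreducible_of_word (hQ : ∀ F : R, F ∈ Q ↔ IsQS F) (ω : P → ℕ)
    (hω : Function.Injective ω) [Nonempty P] (l : List ℕ)
    (hW : W (fun a b : P => a < b) (fun x => (ω x : ℤ)) l univ univ ≠ 0) :
    Irreducible (GamQ hQ ω (univ : Finset P)) := by
  classical
  set S := bottom hQ with hS
  have hω' : Function.Injective (fun p => (ω p : ℤ)) := fun a b h => hω (by simpa using h)
  refine Cyc.irreducible_of_functional hQ _ (Fintype.card P) Fintype.card_pos ?_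
    (fun F => if h : IsQS F then
      MvPowerSeries.coeff 0 ((S.tw l ⟨F, (hQ F).mpr h⟩ : Q) : R) else 0) ?_ ?_
  · intro m hm
    change MvPowerSeries.coeff m (Gam ω univ) ≠ 0 at hm
    rw [coeff_Gam] at hm
    have h1 : Nonempty (Sol ω (univ : Finset P) m) := by
      by_contra h2
      rw [not_nonempty_iff] at h2
      apply hm
      rw [Nat.card_of_isEmpty]
      simp
    obtain ⟨f, hf⟩ := h1
    rw [Cyc.deg, ← hf.2.2, deg_cnt, Finset.card_univ]
  · intro A B hA hB hA0 hB0
    have hAB : IsQS (A * B) := (hQ _).mp (Q.mul_mem ((hQ _).mpr hA) ((hQ _).mpr hB))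
    rw [dif_pos hAB]
    have h1 : (⟨A * B, (hQ _).mpr hAB⟩ : Q) = ⟨A, (hQ _).mpr hA⟩ * ⟨B, (hQ _).mpr hB⟩ := rfl
    rw [h1, (S.isDer_tw l).mul]
    change MvPowerSeries.coeff 0 (A * _ + B * _) = 0
    rw [map_add, MvPowerSeries.coeff_zero_eq_constantCoeff_apply, map_mul,
      MvPowerSeries.coeff_zero_eq_constantCoeff_apply, map_mul,
      ← MvPowerSeries.coeff_zero_eq_constantCoeff_apply,
      ← MvPowerSeries.coeff_zero_eq_constantCoeff_apply B, hA0, hB0]
    ring
  · have h1 : IsQS ((GamQ hQ ω (univ : Finset P) : Q) : R) := Gam_isQS ω univ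
    rw [dif_pos h1]
    have h2 : (⟨((GamQ hQ ω (univ : Finset P) : Q) : R), (hQ _).mpr h1⟩ : Q) =
      GamQ hQ ω (univ : Finset P) := rfl
    rw [h2, tw_Gamma S (GamQ hQ ω) (fun x => lt_irrefl x) hω'
      (fun U k => bottom_rec hQ ω hω U k) l univ, AddSubmonoidClass.coe_finsetSum, map_sum,
      Finset.sum_eq_single univ]
    · rw [sdiff_self]
      change MvPowerSeries.coeff 0 (((W _ _ l univ univ : ℤ) : R) * Gam ω ∅) ≠ 0
      rw [MvPowerSeries.coeff_zero_eq_constantCoeff_apply, map_mul,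
        ← MvPowerSeries.coeff_zero_eq_constantCoeff_apply (Gam ω ∅), coeff_zero_Gam, if_pos rfl,
        mul_one, map_intCast]
      exact_mod_cast hW
    · intro M _ hM
      change MvPowerSeries.coeff 0 (((W _ _ l univ M : ℤ) : R) * Gam ω (univ \ M)) = 0
      rw [MvPowerSeries.coeff_zero_eq_constantCoeff_apply, map_mul,
        ← MvPowerSeries.coeff_zero_eq_constantCoeff_apply (Gam ω (univ \ M)), coeff_zero_Gam,
        if_neg, mul_zero]
      intro h3
      apply hM
      rw [Finset.sdiff_eq_empty_iff_subset] at h3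
      exact Finset.univ_subset_iff.mp h3
    · intro h3
      exact absurd (Finset.mem_univ _) h3

end Pool.Agent.Lib.MP_5bc52d_co
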